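import Pool.Agent.Lib.MP_478c11_gt.M.BND

section
set_option autoImplicit false

/-!
MP_478c11_gt (helper9): surfaces of revolution with a rim are rigid (strips and manifolds).
-/

open Real MeasureTheory Set Filter Topology
open scoped ContDiff InnerProductSpace Manifold

namespace Rim478

namespace REMM

open BRGM

/-- the strip form -/
theorem revT {J : Set ℝ} {r z : ℝ → ℝ} {t₀ : ℝ} (oJ : IsOpen J) (cJ : J.OrdConnected) (hr : ContDiffOn ℝ ∞ r J)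
    (hz : ContDiffOn ℝ ∞ z J) (rpos : ∀ t ∈ J, 0 < r t) (uni : ∀ t ∈ J, deriv r t ^ 2 + deriv z t ^ 2 = 1)
    (hK : ∀ t ∈ J, ∃ k : ℕ, iteratedDeriv k (deriv (deriv r)) t ≠ 0) (ht₀ : t₀ ∈ J) (h1 : deriv z t₀ = 0)
    (h2 : deriv (deriv z) t₀ ≠ 0) :
    ∃ ε : ℝ, 0 < ε ∧ ∀ Y : ℝ → ℝ → E3, Str J (fun t _ => r t) Y → ClJ ε t₀ (rv r z) Y →
      ∃ (g : E3 ≃ₗᵢ[ℝ] E3) (b : E3), ∀ t ∈ J, ∀ θ, g (Y t θ) + b = rv r z t θ := by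
  have SX : Str J (fun t _ => r t) (rv r z) := hREV.str oJ hr hz rpos uni
  have r2 : deriv r t₀ ^ 2 = 1 := by
    have := uni t₀ ht₀
    rw [h1] at this
    simpa using this
  have hs : -deriv r t₀ = 1 ∨ -deriv r t₀ = -1 := by
    have h5 : (deriv r t₀ - 1) * (deriv r t₀ + 1) = 0 := by linear_combination r2
    rcases mul_eq_zero.mp h5 with h | h
    · right; linarith
    · left; linarith
  have n1 : ‖REVM.ey‖ = 1 := by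
    have : ⟪REVM.ey, REVM.ey⟫_ℝ = 1 := by rw [REVM.in3]; simp [REVM.ey]
    rw [real_inner_self_eq_norm_sq] at this
    nlinarith [norm_nonneg REVM.ey]
  have n2 : ‖-REVM.ex‖ = 1 := by
    have : ⟪REVM.ex, REVM.ex⟫_ℝ = 1 := by rw [REVM.in3]; simp [REVM.ex]
    rw [real_inner_self_eq_norm_sq] at this
    rw [norm_neg]
    nlinarith [norm_nonneg REVM.ex]
  have n3 : ⟪REVM.ey, -REVM.ex⟫_ℝ = 0 := by
    rw [inner_neg_right, REVM.in3]; simp [REVM.ey, REVM.ex]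
  have hw : ∀ θ, REVM.wx θ = cos θ • REVM.ey + sin θ • (-REVM.ex) := by
    intro θ
    rw [REVM.wx_eq]
    module
  have hu : ∀ θ, REVM.ux θ = -(-sin θ • REVM.ey + cos θ • (-REVM.ex)) := by
    intro θ
    rw [REVM.ux_eq]
    module
  have hk : cr REVM.ey (-REVM.ex) = REVM.kz := by
    ext i
    fin_cases i <;> simp [cr, REVM.ey, REVM.ex, REVM.kz]
  obtain ⟨ε, hε, H⟩ := bridge (s := -deriv r t₀) (R := fun _ => r t₀) (u₁ := REVM.ey) (u₂ := -REVM.ex) oJ ht₀ SX hs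
    n1 n2 n3 (fun _ => rpos t₀ ht₀)
    (fun θ => by rw [REVM.h1, hw θ])
    (fun θ => by rw [REVM.p1 oJ hr hz ht₀, h1, zero_smul, add_zero, hu θ]; module)
    (fun θ => by
      rw [REVM.p2 hDR2 oJ hr hz ht₀, hk, inner_add_left, inner_smul_left, inner_smul_left, REVM.iuk, REVM.ikk]
      simpa using h2)
  refine ⟨ε, hε, fun Y SY hcl => ?_⟩
  obtain ⟨f1, f2, f3⟩ := H Y SY hcl
  exact hGLB J r z Y t₀ oJ cJ hr hz rpos uni hK SY ht₀ f1 f2 f3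

/-! ### maps on a manifold -/

variable {M : Type} [TopologicalSpace M] [ChartedSpace E2 M] {J : Set ℝ} {ψ : ℝ × ℝ → M}

/-- the derivative of `f ∘ ψ` -/
lemma der_comp (oJ : IsOpen J) {f : M → E3} (hf : ContMDiff 𝓘(ℝ, E2) 𝓘(ℝ, E3) ∞ f)
    (hψ : ContMDiffOn 𝓘(ℝ, ℝ × ℝ) 𝓘(ℝ, E2) ∞ ψ (J ×ˢ univ)) {t : ℝ} (ht : t ∈ J) (θ : ℝ) (w : ℝ × ℝ) :
    fderiv ℝ (fun p => f (ψ p)) (t, θ) w = dF f (ψ (t, θ)) (mfderiv 𝓘(ℝ, ℝ × ℝ) 𝓘(ℝ, E2) ψ (t, θ) w) := by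
  have hop : IsOpen (J ×ˢ (univ : Set ℝ)) := oJ.prod isOpen_univ
  have h1 : MDifferentiableAt 𝓘(ℝ, ℝ × ℝ) 𝓘(ℝ, E2) ψ (t, θ) :=
    (hψ.contMDiffAt (hop.mem_nhds ⟨ht, mem_univ _⟩)).mdifferentiableAt (by simp)
  have h2 : MDifferentiableAt 𝓘(ℝ, E2) 𝓘(ℝ, E3) f (ψ (t, θ)) := (hf _).mdifferentiableAt (by simp)
  have h3 := mfderiv_comp (t, θ) h2 h1
  have h4 : mfderiv 𝓘(ℝ, ℝ × ℝ) 𝓘(ℝ, E3) (fun p => f (ψ p)) (t, θ) = _ := h3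
  rw [← mfderiv_eq_fderiv, h4]
  rfl

/-- partial derivatives are values of the differential -/
lemma pt_fd (oJ : IsOpen J) {Y : ℝ → ℝ → E3} (sY : SJ J Y) {t : ℝ} (ht : t ∈ J) (θ : ℝ) :
    pt Y t θ = fderiv ℝ (fun p : ℝ × ℝ => Y p.1 p.2) (t, θ) (1, 0) := by
  have hop : IsOpen (J ×ˢ (univ : Set ℝ)) := oJ.prod isOpen_univ
  have hd : HasFDerivAt (fun p : ℝ × ℝ => Y p.1 p.2) (fderiv ℝ (fun p : ℝ × ℝ => Y p.1 p.2) (t, θ)) (t, θ) :=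
    ((sY.contDiffAt (hop.mem_nhds ⟨ht, mem_univ _⟩)).differentiableAt (by simp)).hasFDerivAt
  have h1 : HasDerivAt (fun s : ℝ => ((s, θ) : ℝ × ℝ)) (1, 0) t := (hasDerivAt_id t).prodMk (hasDerivAt_const t θ)
  exact (hd.comp_hasDerivAt t h1).deriv

lemma ph_fd (oJ : IsOpen J) {Y : ℝ → ℝ → E3} (sY : SJ J Y) {t : ℝ} (ht : t ∈ J) (θ : ℝ) :
    ph Y t θ = fderiv ℝ (fun p : ℝ × ℝ => Y p.1 p.2) (t, θ) (0, 1) := by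
  have hop : IsOpen (J ×ˢ (univ : Set ℝ)) := oJ.prod isOpen_univ
  have hd : HasFDerivAt (fun p : ℝ × ℝ => Y p.1 p.2) (fderiv ℝ (fun p : ℝ × ℝ => Y p.1 p.2) (t, θ)) (t, θ) :=
    ((sY.contDiffAt (hop.mem_nhds ⟨ht, mem_univ _⟩)).differentiableAt (by simp)).hasFDerivAt
  have h1 : HasDerivAt (fun s : ℝ => ((t, s) : ℝ × ℝ)) (0, 1) θ := (hasDerivAt_const θ t).prodMk (hasDerivAt_id θ)
  exact (hd.comp_hasDerivAt θ h1).deriv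

/-- isometric maps have isometric strips -/
lemma iso_comp (oJ : IsOpen J) {f₀ f₁ : M → E3} (hf₀ : ContMDiff 𝓘(ℝ, E2) 𝓘(ℝ, E3) ∞ f₀)
    (hf₁ : ContMDiff 𝓘(ℝ, E2) 𝓘(ℝ, E3) ∞ f₁) (hψ : ContMDiffOn 𝓘(ℝ, ℝ × ℝ) 𝓘(ℝ, E2) ∞ ψ (J ×ˢ univ))
    (hiso : ∀ (x : M) (v : TangentSpace 𝓘(ℝ, E2) x), ‖dF f₁ x v‖ = ‖dF f₀ x v‖) {t : ℝ} (ht : t ∈ J) (θ : ℝ) :
    ⟪pt (fun t θ => f₁ (ψ (t, θ))) t θ, pt (fun t θ => f₁ (ψ (t, θ))) t θ⟫_ℝ =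
      ⟪pt (fun t θ => f₀ (ψ (t, θ))) t θ, pt (fun t θ => f₀ (ψ (t, θ))) t θ⟫_ℝ ∧
    ⟪pt (fun t θ => f₁ (ψ (t, θ))) t θ, ph (fun t θ => f₁ (ψ (t, θ))) t θ⟫_ℝ =
      ⟪pt (fun t θ => f₀ (ψ (t, θ))) t θ, ph (fun t θ => f₀ (ψ (t, θ))) t θ⟫_ℝ ∧
    ⟪ph (fun t θ => f₁ (ψ (t, θ))) t θ, ph (fun t θ => f₁ (ψ (t, θ))) t θ⟫_ℝ =
      ⟪ph (fun t θ => f₀ (ψ (t, θ))) t θ, ph (fun t θ => f₀ (ψ (t, θ))) t θ⟫_ℝ := by
  have s₀ := BNDM.slice_sm hf₀ hψ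
  have s₁ := BNDM.slice_sm hf₁ hψ
  have key : ∀ w : ℝ × ℝ, ‖fderiv ℝ (fun p : ℝ × ℝ => f₁ (ψ (p.1, p.2))) (t, θ) w‖ =
      ‖fderiv ℝ (fun p : ℝ × ℝ => f₀ (ψ (p.1, p.2))) (t, θ) w‖ := by
    intro w
    have h0 := der_comp oJ hf₀ hψ ht θ w
    have h1 := der_comp oJ hf₁ hψ ht θ w
    have h0' : fderiv ℝ (fun p : ℝ × ℝ => f₀ (ψ (p.1, p.2))) (t, θ) w = _ := h0
    have h1' : fderiv ℝ (fun p : ℝ × ℝ => f₁ (ψ (p.1, p.2))) (t, θ) w = _ := h1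
    rw [h0', h1']
    exact hiso _ _
  rw [pt_fd oJ s₀ ht, pt_fd oJ s₁ ht, ph_fd oJ s₀ ht, ph_fd oJ s₁ ht]
  have k1 := key (1, 0)
  have k2 := key (0, 1)
  have k3 := key (1, 1)
  have e3 : ((1, 1) : ℝ × ℝ) = (1, 0) + (0, 1) := by ext <;> simp
  rw [e3, map_add, map_add] at k3
  refine ⟨?_, ?_, ?_⟩
  · rw [real_inner_self_eq_norm_sq, real_inner_self_eq_norm_sq, k1]
  · have p1 := norm_add_sq_real (fderiv ℝ (fun p : ℝ × ℝ => f₁ (ψ (p.1, p.2))) (t, θ) (1, 0))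
      (fderiv ℝ (fun p : ℝ × ℝ => f₁ (ψ (p.1, p.2))) (t, θ) (0, 1))
    have p0 := norm_add_sq_real (fderiv ℝ (fun p : ℝ × ℝ => f₀ (ψ (p.1, p.2))) (t, θ) (1, 0))
      (fderiv ℝ (fun p : ℝ × ℝ => f₀ (ψ (p.1, p.2))) (t, θ) (0, 1))
    rw [k1, k2, k3] at p1
    linarith
  · rw [real_inner_self_eq_norm_sq, real_inner_self_eq_norm_sq, k2]

/-- the theorem for a map on a surface: isolated form -/
theorem revM {r z : ℝ → ℝ} {t₀ : ℝ} {f₀ : M → E3} (oJ : IsOpen J) (cJ : J.OrdConnected)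
    (hr : ContDiffOn ℝ ∞ r J) (hz : ContDiffOn ℝ ∞ z J) (rpos : ∀ t ∈ J, 0 < r t)
    (uni : ∀ t ∈ J, deriv r t ^ 2 + deriv z t ^ 2 = 1)
    (hK : ∀ t ∈ J, ∃ k : ℕ, iteratedDeriv k (deriv (deriv r)) t ≠ 0) (ht₀ : t₀ ∈ J) (h1 : deriv z t₀ = 0)
    (h2 : deriv (deriv z) t₀ ≠ 0) (hψ : ContMDiffOn 𝓘(ℝ, ℝ × ℝ) 𝓘(ℝ, E2) ∞ ψ (J ×ˢ univ))
    (hper : ∀ t ∈ J, ∀ θ, ψ (t, θ + 2 * π) = ψ (t, θ)) (hdense : Dense (ψ '' (J ×ˢ univ)))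
    (hf₀ : ContMDiff 𝓘(ℝ, E2) 𝓘(ℝ, E3) ∞ f₀) (hrev : ∀ t ∈ J, ∀ θ, f₀ (ψ (t, θ)) = rv r z t θ) :
    ∃ ε : ℝ, 0 < ε ∧ ∀ f₁ : M → E3, ContMDiff 𝓘(ℝ, E2) 𝓘(ℝ, E3) ∞ f₁ →
      (∀ (x : M) (v : TangentSpace 𝓘(ℝ, E2) x), ‖dF f₁ x v‖ = ‖dF f₀ x v‖) →
      ClJ ε t₀ (fun t θ => f₀ (ψ (t, θ))) (fun t θ => f₁ (ψ (t, θ))) → Cong f₀ f₁ := by
  obtain ⟨ε, hε, H⟩ := revT oJ cJ hr hz rpos uni hK ht₀ h1 h2
  refine ⟨ε, hε, fun f₁ hf₁ hiso hcl => ?_⟩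
  have SX : Str J (fun t _ => r t) (rv r z) := hREV.str oJ hr hz rpos uni
  -- the two maps agree on `J`
  have a1 : ∀ t ∈ J, ∀ θ, pt (fun t θ => f₀ (ψ (t, θ))) t θ = pt (rv r z) t θ := hDR2.pcg oJ hrev
  have a2 : ∀ t ∈ J, ∀ θ, ph (fun t θ => f₀ (ψ (t, θ))) t θ = ph (rv r z) t θ := hDR2.hcg hrev
  have SY : Str J (fun t _ => r t) (fun t θ => f₁ (ψ (t, θ))) := {
    sm := BNDM.slice_sm hf₁ hψ
    per := fun t ht θ => by simp only [hper t ht θ]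
    sr := SX.sr
    pos := SX.pos
    tt := fun t ht θ => by
      rw [(iso_comp oJ hf₀ hf₁ hψ hiso ht θ).1, a1 t ht θ]; exact SX.tt t ht θ
    th := fun t ht θ => by
      rw [(iso_comp oJ hf₀ hf₁ hψ hiso ht θ).2.1, a1 t ht θ, a2 t ht θ]; exact SX.th t ht θ
    hh := fun t ht θ => by
      rw [(iso_comp oJ hf₀ hf₁ hψ hiso ht θ).2.2, a2 t ht θ]; exact SX.hh t ht θ }
  have a11 := hDR2.pcg oJ a1
  have a22 := hDR2.hcg a2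
  have b1 := hDR2.hcg a1
  have b2 := hDR2.hcg b1
  have b3 := hDR2.hcg b2
  have hcl2 : ClJ ε t₀ (rv r z) (fun t θ => f₁ (ψ (t, θ))) := by
    intro θ
    have h := hcl θ
    rw [a1 t₀ ht₀ θ, a2 t₀ ht₀ θ, a11 t₀ ht₀ θ, a22 t₀ ht₀ θ, b2 t₀ ht₀ θ, b3 t₀ ht₀ θ] at h
    exact h
  obtain ⟨g, b, hg⟩ := H _ SY hcl2
  refine ⟨g, b, ?_⟩
  have hc1 : Continuous (fun x => g (f₁ x) + b) := (g.continuous.comp hf₁.continuous).add continuous_const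
  have hc0 : Continuous f₀ := hf₀.continuous
  have heq : (fun x => g (f₁ x) + b) = f₀ := by
    refine Continuous.ext_on hdense hc1 hc0 ?_
    rintro x ⟨⟨t, θ⟩, ⟨ht, _⟩, rfl⟩
    simp only
    rw [hg t ht θ, hrev t ht θ]
  intro x
  exact congrFun heq x

/-- the theorem for bendings -/
theorem revB {r z : ℝ → ℝ} {t₀ : ℝ} {f : ℝ → M → E3} (oJ : IsOpen J) (cJ : J.OrdConnected)
    (hr : ContDiffOn ℝ ∞ r J) (hz : ContDiffOn ℝ ∞ z J) (rpos : ∀ t ∈ J, 0 < r t)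
    (uni : ∀ t ∈ J, deriv r t ^ 2 + deriv z t ^ 2 = 1)
    (hK : ∀ t ∈ J, ∃ k : ℕ, iteratedDeriv k (deriv (deriv r)) t ≠ 0) (ht₀ : t₀ ∈ J) (h1 : deriv z t₀ = 0)
    (h2 : deriv (deriv z) t₀ ≠ 0) (hψ : ContMDiffOn 𝓘(ℝ, ℝ × ℝ) 𝓘(ℝ, E2) ∞ ψ (J ×ˢ univ))
    (hper : ∀ t ∈ J, ∀ θ, ψ (t, θ + 2 * π) = ψ (t, θ)) (hdense : Dense (ψ '' (J ×ˢ univ)))
    (hf : ContMDiffOn (𝓘(ℝ, ℝ).prod 𝓘(ℝ, E2)) 𝓘(ℝ, E3) ∞ (fun p : ℝ × M => f p.1 p.2) (Icc 0 1 ×ˢ univ))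
    (hiso : ∀ α ∈ Icc (0:ℝ) 1, ∀ (x : M) (v : TangentSpace 𝓘(ℝ, E2) x), ‖dF (f α) x v‖ = ‖dF (f 0) x v‖)
    (hrev : ∀ t ∈ J, ∀ θ, f 0 (ψ (t, θ)) = rv r z t θ) : ∀ α ∈ Icc (0:ℝ) 1, Cong (f 0) (f α) := by
  obtain ⟨ε, hε, H⟩ := revM (f₀ := f 0) oJ cJ hr hz rpos uni hK ht₀ h1 h2 hψ hper hdense
    (BNDM.fix_sm hf ⟨le_refl _, zero_le_one⟩) hrev
  exact bend hf hiso oJ ht₀ hψ hper hε H

/-- isolated form and bendings in one statement -/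
theorem revMB {r z : ℝ → ℝ} {t₀ : ℝ} {f₀ : M → E3} (oJ : IsOpen J) (cJ : J.OrdConnected)
    (hr : ContDiffOn ℝ ∞ r J) (hz : ContDiffOn ℝ ∞ z J) (rpos : ∀ t ∈ J, 0 < r t)
    (uni : ∀ t ∈ J, deriv r t ^ 2 + deriv z t ^ 2 = 1)
    (hK : ∀ t ∈ J, ∃ k : ℕ, iteratedDeriv k (deriv (deriv r)) t ≠ 0) (ht₀ : t₀ ∈ J) (h1 : deriv z t₀ = 0)
    (h2 : deriv (deriv z) t₀ ≠ 0) (hψ : ContMDiffOn 𝓘(ℝ, ℝ × ℝ) 𝓘(ℝ, E2) ∞ ψ (J ×ˢ univ))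
    (hper : ∀ t ∈ J, ∀ θ, ψ (t, θ + 2 * π) = ψ (t, θ)) (hdense : Dense (ψ '' (J ×ˢ univ)))
    (hf₀ : ContMDiff 𝓘(ℝ, E2) 𝓘(ℝ, E3) ∞ f₀) (hrev : ∀ t ∈ J, ∀ θ, f₀ (ψ (t, θ)) = rv r z t θ) :
    ∃ ε : ℝ, 0 < ε ∧ ∀ f : ℝ → M → E3,
      ContMDiffOn (𝓘(ℝ, ℝ).prod 𝓘(ℝ, E2)) 𝓘(ℝ, E3) ∞ (fun p : ℝ × M => f p.1 p.2) (Icc 0 1 ×ˢ univ) →
      (∀ α ∈ Icc (0:ℝ) 1, ∀ (x : M) (v : TangentSpace 𝓘(ℝ, E2) x), ‖dF (f α) x v‖ = ‖dF (f 0) x v‖) →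
      (∀ (x : M) (v : TangentSpace 𝓘(ℝ, E2) x), ‖dF (f 0) x v‖ = ‖dF f₀ x v‖) →
      ClJ ε t₀ (fun t θ => f₀ (ψ (t, θ))) (fun t θ => f 0 (ψ (t, θ))) →
      ∀ α ∈ Icc (0:ℝ) 1, Cong f₀ (f α) := by
  obtain ⟨ε, hε, H⟩ := revM (f₀ := f₀) oJ cJ hr hz rpos uni hK ht₀ h1 h2 hψ hper hdense hf₀ hrev
  exact ⟨ε, hε, fun f hf hiso h0 hc => isoBend hf hiso oJ ht₀ hψ hper hf₀ h0 hε H hc⟩

end REMM

end Rim478
end

section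
set_option autoImplicit false

/-!
MP_478c11_gt (helper9): from isolated congruence to bendings, for a class of maps.
-/

open Real MeasureTheory Set Filter Topology
open scoped ContDiff InnerProductSpace Manifold

namespace Rim478

open BNDM BRGM OPNM in
/-- if every isometric immersion of the class `P` which is close to `f 0` along the curve `ψ (t₀, ·)` is congruent to `f 0`, then every bending of `f 0` in the class `P` is trivial -/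
theorem bendP {M : Type} [TopologicalSpace M] [ChartedSpace E2 M] {f : ℝ → M → E3} {J : Set ℝ} {ψ : ℝ × ℝ → M} {t₀ ε : ℝ}
    (hf : ContMDiffOn (𝓘(ℝ, ℝ).prod 𝓘(ℝ, E2)) 𝓘(ℝ, E3) ∞ (fun p : ℝ × M => f p.1 p.2) (Icc 0 1 ×ˢ univ))
    (hiso : ∀ α ∈ Icc (0:ℝ) 1, ∀ (x : M) (v : TangentSpace 𝓘(ℝ, E2) x),
      ‖dF (f α) x v‖ = ‖dF (f 0) x v‖)
    (oJ : IsOpen J) (ht₀ : t₀ ∈ J) (hψ : ContMDiffOn 𝓘(ℝ, ℝ × ℝ) 𝓘(ℝ, E2) ∞ ψ (J ×ˢ univ))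
    (hper : ∀ t ∈ J, ∀ θ, ψ (t, θ + 2 * π) = ψ (t, θ)) (hε : 0 < ε)
    {P : (M → E3) → Prop} (hP : ∀ (g : E3 ≃ₗᵢ[ℝ] E3) (b : E3) (h : M → E3), P h → P (fun x => g (h x) + b))
    (hPf : ∀ α ∈ Icc (0:ℝ) 1, P (f α))
    (H : ∀ f₁ : M → E3, P f₁ → ContMDiff 𝓘(ℝ, E2) 𝓘(ℝ, E3) ∞ f₁ →
      (∀ (x : M) (v : TangentSpace 𝓘(ℝ, E2) x),
        ‖dF f₁ x v‖ = ‖dF (f 0) x v‖) →
      ClJ ε t₀ (fun t θ => f 0 (ψ (t, θ))) (fun t θ => f₁ (ψ (t, θ))) → Cong (f 0) f₁) :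
    ∀ α ∈ Icc (0:ℝ) 1, Cong (f 0) (f α) := by
  obtain ⟨δ, hδ, hJ⟩ : ∃ δ : ℝ, 0 < δ ∧ Icc (t₀ - δ) (t₀ + δ) ⊆ J := by
    obtain ⟨η, hη, h⟩ := Metric.isOpen_iff.mp oJ t₀ ht₀
    refine ⟨η / 2, by positivity, fun x hx => h ?_⟩
    rw [Metric.mem_ball, Real.dist_eq, abs_lt]
    constructor <;> linarith [hx.1, hx.2]
  have sβ : ∀ β : ℝ, sin β ^ 2 ∈ Icc (0:ℝ) 1 := fun β => ⟨sq_nonneg _, sin_sq_le_one _⟩
  obtain ⟨F, hF⟩ : ∃ F : ℝ → ℝ → ℝ → E3, F = fun β τ θ => f (sin β ^ 2) (ψ (rp t₀ 1 δ τ, θ)) := ⟨_, rfl⟩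
  have sF : Sm F := by rw [hF]; exact fam_sm hf hψ hδ hJ
  have pF : ∀ α t θ, F α t (θ + 2 * π) = F α t θ := by
    intro α t θ
    rw [hF]
    simp only
    rw [hper _ (rp_mem (Or.inl rfl) hδ hJ t)]
  -- the slices
  obtain ⟨Y, hY⟩ : ∃ Y : ℝ → ℝ → ℝ → E3, Y = fun β t θ => f (sin β ^ 2) (ψ (t, θ)) := ⟨_, rfl⟩
  have sY : ∀ β, SJ J (Y β) := by
    intro β
    rw [hY]
    exact slice_sm (fix_sm hf (sβ β)) hψ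
  have FY : ∀ β, F β = rY t₀ 1 δ (Y β) := by
    intro β
    rw [hF, hY]
    rfl
  have d0 : ∀ β θ, dt F β 0 θ = pt (Y β) t₀ θ ∧ dt (dt F) β 0 θ = pt (pt (Y β)) t₀ θ := by
    intro β θ
    have h := at0s oJ (Or.inl rfl) hδ hJ (sY β) θ
    rw [← FY β, one_smul] at h
    exact h
  have d1 : ∀ β θ, dh F β 0 θ = ph (Y β) t₀ θ ∧ dh (dh F) β 0 θ = ph (ph (Y β)) t₀ θ ∧
      dh (dh (dt F)) β 0 θ = ph (ph (pt (Y β))) t₀ θ ∧ dh (dh (dh (dt F))) β 0 θ = ph (ph (ph (pt (Y β)))) t₀ θ := by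
    intro β θ
    have h := at1s oJ (Or.inl rfl) hδ hJ (sY β) θ
    rw [← FY β, one_smul, one_smul] at h
    exact h
  have un : ∀ Z : ℝ → ℝ → ℝ → E3, Sm Z → (∀ α t θ, Z α t (θ + 2 * π) = Z α t θ) → ∀ β₀ : ℝ,
      ∀ᶠ β in 𝓝 β₀, ∀ θ, ‖Z β 0 θ - Z β₀ 0 θ‖ < ε := by
    intro Z sZ pZ β₀
    have h1 : Continuous (fun p : ℝ × ℝ => Z p.1 0 p.2) := sm_cont sZ
    have h2 : Continuous (fun p : ℝ × ℝ => Z β₀ 0 p.2) :=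
      (slc (fun β θ => Z β 0 θ) h1 β₀).comp continuous_snd
    have h3 := unif (G := fun β θ => Z β 0 θ - Z β₀ 0 θ) (α₀ := β₀) (O := Metric.ball 0 ε) Metric.isOpen_ball
      (fun θ => (h1.sub h2).continuousAt) (fun θ => by simp [hε]) (fun α θ => by simp only [pZ])
    filter_upwards [h3] with β hβ θ
    have := hβ θ
    rwa [mem_ball_zero_iff] at this
  have hopen : IsOpen {β | Cong (f 0) (f (sin β ^ 2))} := by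
    rw [isOpen_iff_mem_nhds]
    rintro β₀ ⟨g, b, hgb⟩
    have pdF := per_dh pF
    have ptF := per_dt pF
    filter_upwards [un (dh F) (hDRV.sdh sF) pdF β₀, un (dh (dh F)) (hDRV.sdh (hDRV.sdh sF)) (per_dh pdF) β₀,
      un (dt F) (hDRV.sdt sF) ptF β₀, un (dh (dh (dt F))) (hDRV.sdh (hDRV.sdh (hDRV.sdt sF))) (per_dh (per_dh ptF)) β₀,
      un (dh (dh (dh (dt F)))) (hDRV.sdh (hDRV.sdh (hDRV.sdh (hDRV.sdt sF)))) (per_dh (per_dh (per_dh ptF))) β₀,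
      un (dt (dt F)) (hDRV.sdt (hDRV.sdt sF)) (per_dt ptF) β₀] with β v1 v2 v3 v4 v5 v6
    have base : (fun t θ => f 0 (ψ (t, θ))) = fun t θ => g (Y β₀ t θ) + b := by
      funext t θ
      rw [hY]
      exact (hgb _).symm
    have new : (fun t θ => (fun x => g (f (sin β ^ 2) x) + b) (ψ (t, θ))) = fun t θ => g (Y β t θ) + b := by
      funext t θ
      rw [hY]
    have smg : ContMDiff 𝓘(ℝ, E2) 𝓘(ℝ, E3) ∞ (fun x => g (f (sin β ^ 2) x) + b) := by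
      have h1 : ContDiff ℝ ∞ (fun y : E3 => g y + b) :=
        (g.toContinuousLinearEquiv.toContinuousLinearMap.contDiff).add contDiff_const
      exact h1.contMDiff.comp (fix_sm hf (sβ β))
    have hc := H (fun x => g (f (sin β ^ 2) x) + b) (hP g b _ (hPf _ (sβ β))) smg ?_ ?_
    · obtain ⟨g', b', h'⟩ := hc
      refine ⟨g.trans g', g' b + b', fun x => ?_⟩
      rw [← h' x, map_add, LinearIsometryEquiv.coe_trans, Function.comp_apply]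
      abel
    · intro x v
      have hd : MDifferentiableAt 𝓘(ℝ, E2) 𝓘(ℝ, E3) (f (sin β ^ 2)) x :=
        (fix_sm hf (sβ β)).mdifferentiableAt (by simp)
      have hg1 : HasFDerivAt (fun y : E3 => g y + b) (g.toContinuousLinearEquiv.toContinuousLinearMap)
          (f (sin β ^ 2) x) :=
        (g.toContinuousLinearEquiv.toContinuousLinearMap.hasFDerivAt).add_const b
      have hg2 : MDifferentiableAt 𝓘(ℝ, E3) 𝓘(ℝ, E3) (fun y : E3 => g y + b) (f (sin β ^ 2) x) :=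
        hg1.differentiableAt.mdifferentiableAt
      have h1 := mfderiv_comp x hg2 hd
      have h2 : dF (fun x => g (f (sin β ^ 2) x) + b) x v = g (dF (f (sin β ^ 2)) x v) := by
        have h3 : mfderiv 𝓘(ℝ, E2) 𝓘(ℝ, E3) (fun x => g (f (sin β ^ 2) x) + b) x = _ := h1
        unfold dF
        rw [h3, mfderiv_eq_fderiv, hg1.fderiv]
        rfl
      rw [h2, g.norm_map]
      exact hiso _ (sβ β) x v
    · rw [base]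
      have new2 : ClJ ε t₀ (fun t θ => g (Y β₀ t θ) + b) (fun t θ => g (Y β t θ) + b) := by
        have s1 := sY β
        have s2 := sY β₀
        have A1 : ∀ β', SJ J (Y β') → ∀ θ, ph (fun t θ => g (Y β' t θ) + b) t₀ θ = g (ph (Y β') t₀ θ) :=
          fun β' s θ => g_ph oJ g b s t₀ ht₀ θ
        have A2 : ∀ β', SJ J (Y β') → ∀ θ, ph (ph (fun t θ => g (Y β' t θ) + b)) t₀ θ = g (ph (ph (Y β')) t₀ θ) := by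
          intro β' s θ
          rw [hDR2.hcg (g_ph oJ g b s) t₀ ht₀ θ]
          exact g_ph0 oJ g (hDR2.sph oJ s) t₀ ht₀ θ
        have A3 : ∀ β', SJ J (Y β') → ∀ θ, pt (fun t θ => g (Y β' t θ) + b) t₀ θ = g (pt (Y β') t₀ θ) :=
          fun β' s θ => g_pt oJ g b s t₀ ht₀ θ
        have A6 : ∀ β', SJ J (Y β') → ∀ θ, pt (pt (fun t θ => g (Y β' t θ) + b)) t₀ θ = g (pt (pt (Y β')) t₀ θ) := by
          intro β' s θ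
          rw [hDR2.pcg oJ (g_pt oJ g b s) t₀ ht₀ θ]
          exact g_pt0 oJ g (hDR2.spt oJ s) t₀ ht₀ θ
        have B1 : ∀ β', SJ J (Y β') → ∀ t ∈ J, ∀ θ, ph (pt (fun t θ => g (Y β' t θ) + b)) t θ = g (ph (pt (Y β')) t θ) := by
          intro β' s t ht θ
          rw [hDR2.hcg (g_pt oJ g b s) t ht θ]
          exact g_ph0 oJ g (hDR2.spt oJ s) t ht θ
        have B2 : ∀ β', SJ J (Y β') → ∀ t ∈ J, ∀ θ, ph (ph (pt (fun t θ => g (Y β' t θ) + b))) t θ =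
            g (ph (ph (pt (Y β'))) t θ) := by
          intro β' s t ht θ
          rw [hDR2.hcg (B1 β' s) t ht θ]
          exact g_ph0 oJ g (hDR2.sph oJ (hDR2.spt oJ s)) t ht θ
        have B3 : ∀ β', SJ J (Y β') → ∀ t ∈ J, ∀ θ, ph (ph (ph (pt (fun t θ => g (Y β' t θ) + b)))) t θ =
            g (ph (ph (ph (pt (Y β')))) t θ) := by
          intro β' s t ht θ
          rw [hDR2.hcg (B2 β' s) t ht θ]
          exact g_ph0 oJ g (hDR2.sph oJ (hDR2.sph oJ (hDR2.spt oJ s))) t ht θ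
        intro θ
        rw [A1 β s1, A1 β₀ s2, A2 β s1, A2 β₀ s2, A3 β s1, A3 β₀ s2, B2 β s1 t₀ ht₀, B2 β₀ s2 t₀ ht₀,
          B3 β s1 t₀ ht₀, B3 β₀ s2 t₀ ht₀, A6 β s1, A6 β₀ s2]
        simp only [← map_sub, g.norm_map]
        obtain ⟨a1, a2⟩ := d0 β θ
        obtain ⟨a1', a2'⟩ := d0 β₀ θ
        obtain ⟨a3, a4, a5, a6⟩ := d1 β θ
        obtain ⟨a3', a4', a5', a6'⟩ := d1 β₀ θ
        rw [← a1, ← a2, ← a3, ← a4, ← a5, ← a6, ← a1', ← a2', ← a3', ← a4', ← a5', ← a6']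
        exact ⟨(v1 θ).le, (v2 θ).le, (v3 θ).le, (v4 θ).le, (v5 θ).le, (v6 θ).le⟩
      rw [← new] at new2
      exact new2
  have hclosed : IsClosed {β | Cong (f 0) (f (sin β ^ 2))} := by
    refine cong_closed (fun β => f (sin β ^ 2)) (f 0) (fun x => ?_)
    have h1 : ContinuousOn (fun p : ℝ × M => f p.1 p.2) (Icc 0 1 ×ˢ univ) := hf.continuousOn
    have h2 : Continuous (fun β : ℝ => ((sin β ^ 2, x) : ℝ × M)) := by fun_prop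
    exact h1.comp_continuous h2 (fun β => ⟨sβ β, mem_univ _⟩)
  have huniv : {β | Cong (f 0) (f (sin β ^ 2))} = univ := by
    refine IsClopen.eq_univ ⟨hclosed, hopen⟩ ⟨0, LinearIsometryEquiv.refl ℝ E3, 0, fun x => ?_⟩
    simp
  intro α hα
  have h1 : arcsin (√α) ∈ {β | Cong (f 0) (f (sin β ^ 2))} := by rw [huniv]; trivial
  have h2 : sin (arcsin √α) ^ 2 = α := by
    rw [sin_arcsin (by linarith [Real.sqrt_nonneg α]) (Real.sqrt_le_one.mpr hα.2)]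
    exact Real.sq_sqrt hα.1
  have h3 : Cong (f 0) (f (sin (arcsin √α) ^ 2)) := h1
  rwa [h2] at h3

open BNDM in
/-- isolated congruence, for the members of a bending -/
theorem isoBendP {M : Type} [TopologicalSpace M] [ChartedSpace E2 M] {f : ℝ → M → E3} {J : Set ℝ} {ψ : ℝ × ℝ → M}
    {t₀ ε : ℝ} {f₀ : M → E3}
    (hf : ContMDiffOn (𝓘(ℝ, ℝ).prod 𝓘(ℝ, E2)) 𝓘(ℝ, E3) ∞ (fun p : ℝ × M => f p.1 p.2) (Icc 0 1 ×ˢ univ))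
    (hiso : ∀ α ∈ Icc (0:ℝ) 1, ∀ (x : M) (v : TangentSpace 𝓘(ℝ, E2) x), ‖dF (f α) x v‖ = ‖dF (f 0) x v‖)
    {P : (M → E3) → Prop} (hP : ∀ (g : E3 ≃ₗᵢ[ℝ] E3) (b : E3) (h : M → E3), P h → P (fun x => g (h x) + b))
    (hPf : ∀ α ∈ Icc (0:ℝ) 1, P (f α))
    (oJ : IsOpen J) (ht₀ : t₀ ∈ J) (hψ : ContMDiffOn 𝓘(ℝ, ℝ × ℝ) 𝓘(ℝ, E2) ∞ ψ (J ×ˢ univ))
    (hper : ∀ t ∈ J, ∀ θ, ψ (t, θ + 2 * π) = ψ (t, θ)) 
    (h0 : ∀ (x : M) (v : TangentSpace 𝓘(ℝ, E2) x), ‖dF (f 0) x v‖ = ‖dF f₀ x v‖) (hε : 0 < ε)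
    (H : ∀ f₁ : M → E3, P f₁ → ContMDiff 𝓘(ℝ, E2) 𝓘(ℝ, E3) ∞ f₁ →
      (∀ (x : M) (v : TangentSpace 𝓘(ℝ, E2) x), ‖dF f₁ x v‖ = ‖dF f₀ x v‖) →
      ClJ ε t₀ (fun t θ => f₀ (ψ (t, θ))) (fun t θ => f₁ (ψ (t, θ))) → Cong f₀ f₁)
    (hc : ClJ ε t₀ (fun t θ => f₀ (ψ (t, θ))) (fun t θ => f 0 (ψ (t, θ)))) :
    ∀ α ∈ Icc (0:ℝ) 1, Cong f₀ (f α) := by
  have z01 : (0:ℝ) ∈ Icc (0:ℝ) 1 := ⟨le_refl _, zero_le_one⟩
  obtain ⟨g, b, hgb⟩ := H (f 0) (hPf 0 z01) (fix_sm hf z01) h0 hc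
  have hg : ContDiff ℝ ∞ (fun y : E3 => g y + b) :=
    (g.toContinuousLinearEquiv.toContinuousLinearMap.contDiff).add contDiff_const
  have hf' : ContMDiffOn (𝓘(ℝ, ℝ).prod 𝓘(ℝ, E2)) 𝓘(ℝ, E3) ∞ (fun p : ℝ × M => g (f p.1 p.2) + b)
      (Icc 0 1 ×ˢ univ) := hg.contMDiff.comp_contMDiffOn hf
  have key := bendP (f := fun α x => g (f α x) + b) (P := P) hf' ?_ oJ ht₀ hψ hper hε hP
    (fun α hα => hP g b _ (hPf α hα)) ?_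
  · intro α hα
    obtain ⟨g', b', h'⟩ := key α hα
    refine ⟨g.trans g', g' b + b', fun x => ?_⟩
    have h2 : g' (g (f α x) + b) + b' = g (f 0 x) + b := h' x
    rw [← hgb x, ← h2, map_add, LinearIsometryEquiv.coe_trans, Function.comp_apply]
    abel
  · intro α hα x v
    rw [dF_g g b (fix_sm hf hα), dF_g g b (fix_sm hf z01), g.norm_map, g.norm_map]
    exact hiso α hα x v
  · simp only [hgb]
    exact H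

end Rim478
end
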