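import Pool.Agent.Lib.MP_478c11_gt.U.BRG

set_option autoImplicit false

/-!
MP_478c11_gt (helper9): from isolated congruence to bendings, on a manifold.
-/

open Real MeasureTheory Set Filter Topology
open scoped ContDiff InnerProductSpace Manifold

namespace Rim478

/-- the maps `f₀` and `f₁` differ by a motion -/
def Cong {P : Type} (f₀ f₁ : P → E3) : Prop := ∃ (g : E3 ≃ₗᵢ[ℝ] E3) (b : E3), ∀ x, g (f₁ x) + b = f₀ x

/-- the differential of a map into space, applied to a tangent vector -/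
noncomputable def dF {M : Type} [TopologicalSpace M] [ChartedSpace E2 M] (f : M → E3) (x : M)
    (v : TangentSpace 𝓘(ℝ, E2) x) : E3 := mfderiv 𝓘(ℝ, E2) 𝓘(ℝ, E3) f x v

namespace BNDM

/-- congruence is a closed condition -/
lemma cong_closed {P : Type} (f : ℝ → P → E3) (f₀ : P → E3) (hc : ∀ x, Continuous (fun β => f β x)) :
    IsClosed {β | Cong f₀ (f β)} := by
  rcases isEmpty_or_nonempty P with hP | ⟨⟨x₀⟩⟩
  · have : {β | Cong f₀ (f β)} = univ := by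
      ext β
      simp only [mem_ofPred_eq, mem_univ, iff_true]
      exact ⟨LinearIsometryEquiv.refl ℝ E3, 0, fun x => (hP.false x).elim⟩
    rw [this]
    exact isClosed_univ
  apply IsSeqClosed.isClosed
  intro βs β hβs hβ
  choose g b hgb using hβs
  -- compactness of the isometries
  have hK : IsCompact {L : E3 →L[ℝ] E3 | ∀ x, ‖L x‖ = ‖x‖} := by
    apply Metric.isCompact_of_isClosed_isBounded
    · have : {L : E3 →L[ℝ] E3 | ∀ x, ‖L x‖ = ‖x‖} = ⋂ x, {L : E3 →L[ℝ] E3 | ‖L x‖ = ‖x‖} := by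
        ext L; simp
      rw [this]
      refine isClosed_iInter fun x => isClosed_eq ?_ continuous_const
      exact (ContinuousLinearMap.apply ℝ E3 x).continuous.norm
    · rw [isBounded_iff_forall_norm_le]
      refine ⟨1, fun L hL => ?_⟩
      refine ContinuousLinearMap.opNorm_le_bound _ zero_le_one (fun x => ?_)
      rw [hL x, one_mul]
  have hmem : ∀ n, ((g n).toContinuousLinearEquiv.toContinuousLinearMap : E3 →L[ℝ] E3) ∈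
      {L : E3 →L[ℝ] E3 | ∀ x, ‖L x‖ = ‖x‖} := fun n x => (g n).norm_map x
  obtain ⟨L, hL, φ, hφ, hLφ⟩ := hK.tendsto_subseq hmem
  have hβφ : Tendsto (βs ∘ φ) atTop (𝓝 β) := hβ.comp hφ.tendsto_atTop
  have hx : ∀ x, Tendsto (fun n => g (φ n) (f (βs (φ n)) x)) atTop (𝓝 (L (f β x))) := by
    intro x
    have h1 : Tendsto (fun n => f (βs (φ n)) x) atTop (𝓝 (f β x)) := ((hc x).tendsto β).comp hβφ
    exact ((isBoundedBilinearMap_apply (𝕜 := ℝ) (E := E3) (F := E3)).continuous.tendsto (L, f β x)).comp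
      (hLφ.prodMk_nhds h1)
  have hb : ∀ n, b (φ n) = f₀ x₀ - g (φ n) (f (βs (φ n)) x₀) := by
    intro n
    rw [← hgb (φ n) x₀]
    abel
  have hb2 : Tendsto (fun n => b (φ n)) atTop (𝓝 (f₀ x₀ - L (f β x₀))) := by
    have := (hx x₀).const_sub (f₀ x₀)
    refine this.congr (fun n => (hb n).symm)
  have hfin : ∀ x, L (f β x) + (f₀ x₀ - L (f β x₀)) = f₀ x := by
    intro x
    have h1 := (hx x).add hb2
    have h2 : (fun n => g (φ n) (f (βs (φ n)) x) + b (φ n)) = fun _ => f₀ x := by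
      funext n
      exact hgb (φ n) x
    rw [h2] at h1
    exact (tendsto_nhds_unique h1 tendsto_const_nhds)
  let Li : E3 →ₗᵢ[ℝ] E3 := ⟨L.toLinearMap, fun x => hL x⟩
  refine ⟨Li.toLinearIsometryEquiv rfl, f₀ x₀ - L (f β x₀), fun x => ?_⟩
  exact hfin x

variable {M : Type} [TopologicalSpace M] [ChartedSpace E2 M]

/-- smoothness of the composed family -/
lemma fam_sm {f : ℝ → M → E3} {J : Set ℝ} {ψ : ℝ × ℝ → M} {t₀ δ : ℝ}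
    (hf : ContMDiffOn (𝓘(ℝ, ℝ).prod 𝓘(ℝ, E2)) 𝓘(ℝ, E3) ∞ (fun p : ℝ × M => f p.1 p.2) (Icc 0 1 ×ˢ univ))
    (hψ : ContMDiffOn 𝓘(ℝ, ℝ × ℝ) 𝓘(ℝ, E2) ∞ ψ (J ×ˢ univ)) (hδ : 0 < δ) (hJ : Icc (t₀ - δ) (t₀ + δ) ⊆ J) :
    Sm (fun β τ θ => f (sin β ^ 2) (ψ (BRGM.rp t₀ 1 δ τ, θ))) := by
  have h1 : ContMDiff 𝓘(ℝ, ℝ × ℝ × ℝ) 𝓘(ℝ, E2) ∞ (fun p : ℝ × ℝ × ℝ => ψ (BRGM.rp t₀ 1 δ p.2.1, p.2.2)) := by
    have h2 : ContDiff ℝ ∞ (fun p : ℝ × ℝ × ℝ => ((BRGM.rp t₀ 1 δ p.2.1, p.2.2) : ℝ × ℝ)) :=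
      ((BRGM.rp_sm t₀ 1 δ).comp (contDiff_fst.comp contDiff_snd)).prodMk (contDiff_snd.comp contDiff_snd)
    exact hψ.comp_contMDiff h2.contMDiff (fun p => ⟨BRGM.rp_mem (Or.inl rfl) hδ hJ _, mem_univ _⟩)
  have h3 : ContMDiff 𝓘(ℝ, ℝ × ℝ × ℝ) 𝓘(ℝ, ℝ) ∞ (fun p : ℝ × ℝ × ℝ => sin p.1 ^ 2) := by
    have : ContDiff ℝ ∞ (fun p : ℝ × ℝ × ℝ => sin p.1 ^ 2) := (contDiff_sin.comp contDiff_fst).pow 2
    exact this.contMDiff
  have h4 := hf.comp_contMDiff (h3.prodMk h1) (fun p => ⟨⟨sq_nonneg _, sin_sq_le_one _⟩, mem_univ _⟩)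
  exact h4.contDiff

lemma slice_sm {f : M → E3} {J : Set ℝ} {ψ : ℝ × ℝ → M} (hf : ContMDiff 𝓘(ℝ, E2) 𝓘(ℝ, E3) ∞ f)
    (hψ : ContMDiffOn 𝓘(ℝ, ℝ × ℝ) 𝓘(ℝ, E2) ∞ ψ (J ×ˢ univ)) : SJ J (fun t θ => f (ψ (t, θ))) := by
  have h := hf.comp_contMDiffOn hψ
  exact h.contDiffOn

lemma fix_sm {f : ℝ → M → E3} (hf : ContMDiffOn (𝓘(ℝ, ℝ).prod 𝓘(ℝ, E2)) 𝓘(ℝ, E3) ∞ (fun p : ℝ × M => f p.1 p.2)
    (Icc 0 1 ×ˢ univ)) {α : ℝ} (hα : α ∈ Icc (0:ℝ) 1) : ContMDiff 𝓘(ℝ, E2) 𝓘(ℝ, E3) ∞ (f α) := by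
  have h1 : ContMDiff 𝓘(ℝ, E2) (𝓘(ℝ, ℝ).prod 𝓘(ℝ, E2)) ∞ (fun x : M => (α, x)) := contMDiff_const.prodMk contMDiff_id
  exact hf.comp_contMDiff h1 (fun x => ⟨hα, mem_univ _⟩)

end BNDM

open BNDM BRGM OPNM in
/-- if every isometric immersion which is close to `f 0` along the curve `ψ (t₀, ·)` is congruent to `f 0`, then every bending of `f 0` is trivial -/
theorem bend {M : Type} [TopologicalSpace M] [ChartedSpace E2 M] {f : ℝ → M → E3} {J : Set ℝ} {ψ : ℝ × ℝ → M} {t₀ ε : ℝ}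
    (hf : ContMDiffOn (𝓘(ℝ, ℝ).prod 𝓘(ℝ, E2)) 𝓘(ℝ, E3) ∞ (fun p : ℝ × M => f p.1 p.2) (Icc 0 1 ×ˢ univ))
    (hiso : ∀ α ∈ Icc (0:ℝ) 1, ∀ (x : M) (v : TangentSpace 𝓘(ℝ, E2) x),
      ‖dF (f α) x v‖ = ‖dF (f 0) x v‖)
    (oJ : IsOpen J) (ht₀ : t₀ ∈ J) (hψ : ContMDiffOn 𝓘(ℝ, ℝ × ℝ) 𝓘(ℝ, E2) ∞ ψ (J ×ˢ univ))
    (hper : ∀ t ∈ J, ∀ θ, ψ (t, θ + 2 * π) = ψ (t, θ)) (hε : 0 < ε)
    (H : ∀ f₁ : M → E3, ContMDiff 𝓘(ℝ, E2) 𝓘(ℝ, E3) ∞ f₁ →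
      (∀ (x : M) (v : TangentSpace 𝓘(ℝ, E2) x),
        ‖dF f₁ x v‖ = ‖dF (f 0) x v‖) →
      ClJ ε t₀ (fun t θ => f 0 (ψ (t, θ))) (fun t θ => f₁ (ψ (t, θ))) → Cong (f 0) f₁) :
    ∀ α ∈ Icc (0:ℝ) 1, Cong (f 0) (f α) := by
  obtain ⟨δ, hδ, hJ⟩ : ∃ δ : ℝ, 0 < δ ∧ Icc (t₀ - δ) (t₀ + δ) ⊆ J := by
    obtain ⟨η, hη, h⟩ := Metric.isOpen_iff.mp oJ t₀ ht₀
    refine ⟨η / 2, by positivity, fun x hx => h ?_⟩
    rw [Metric.mem_ball, Real.dist_eq, abs_lt]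
    constructor <;> linarith [hx.1, hx.2]
  have sβ : ∀ β : ℝ, sin β ^ 2 ∈ Icc (0:ℝ) 1 := fun β => ⟨sq_nonneg _, sin_sq_le_one _⟩
  obtain ⟨F, hF⟩ : ∃ F : ℝ → ℝ → ℝ → E3, F = fun β τ θ => f (sin β ^ 2) (ψ (rp t₀ 1 δ τ, θ)) := ⟨_, rfl⟩
  have sF : Sm F := by rw [hF]; exact fam_sm hf hψ hδ hJ
  have pF : ∀ α t θ, F α t (θ + 2 * π) = F α t θ := by
    intro α t θ
    rw [hF]
    simp only
    rw [hper _ (rp_mem (Or.inl rfl) hδ hJ t)]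
  -- the slices
  obtain ⟨Y, hY⟩ : ∃ Y : ℝ → ℝ → ℝ → E3, Y = fun β t θ => f (sin β ^ 2) (ψ (t, θ)) := ⟨_, rfl⟩
  have sY : ∀ β, SJ J (Y β) := by
    intro β
    rw [hY]
    exact slice_sm (fix_sm hf (sβ β)) hψ
  have FY : ∀ β, F β = rY t₀ 1 δ (Y β) := by
    intro β
    rw [hF, hY]
    rfl
  have d0 : ∀ β θ, dt F β 0 θ = pt (Y β) t₀ θ ∧ dt (dt F) β 0 θ = pt (pt (Y β)) t₀ θ := by
    intro β θ
    have h := at0s oJ (Or.inl rfl) hδ hJ (sY β) θ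
    rw [← FY β, one_smul] at h
    exact h
  have d1 : ∀ β θ, dh F β 0 θ = ph (Y β) t₀ θ ∧ dh (dh F) β 0 θ = ph (ph (Y β)) t₀ θ ∧
      dh (dh (dt F)) β 0 θ = ph (ph (pt (Y β))) t₀ θ ∧ dh (dh (dh (dt F))) β 0 θ = ph (ph (ph (pt (Y β)))) t₀ θ := by
    intro β θ
    have h := at1s oJ (Or.inl rfl) hδ hJ (sY β) θ
    rw [← FY β, one_smul, one_smul] at h
    exact h
  have un : ∀ Z : ℝ → ℝ → ℝ → E3, Sm Z → (∀ α t θ, Z α t (θ + 2 * π) = Z α t θ) → ∀ β₀ : ℝ,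
      ∀ᶠ β in 𝓝 β₀, ∀ θ, ‖Z β 0 θ - Z β₀ 0 θ‖ < ε := by
    intro Z sZ pZ β₀
    have h1 : Continuous (fun p : ℝ × ℝ => Z p.1 0 p.2) := sm_cont sZ
    have h2 : Continuous (fun p : ℝ × ℝ => Z β₀ 0 p.2) :=
      (slc (fun β θ => Z β 0 θ) h1 β₀).comp continuous_snd
    have h3 := unif (G := fun β θ => Z β 0 θ - Z β₀ 0 θ) (α₀ := β₀) (O := Metric.ball 0 ε) Metric.isOpen_ball
      (fun θ => (h1.sub h2).continuousAt) (fun θ => by simp [hε]) (fun α θ => by simp only [pZ])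
    filter_upwards [h3] with β hβ θ
    have := hβ θ
    rwa [mem_ball_zero_iff] at this
  have hopen : IsOpen {β | Cong (f 0) (f (sin β ^ 2))} := by
    rw [isOpen_iff_mem_nhds]
    rintro β₀ ⟨g, b, hgb⟩
    have pdF := per_dh pF
    have ptF := per_dt pF
    filter_upwards [un (dh F) (hDRV.sdh sF) pdF β₀, un (dh (dh F)) (hDRV.sdh (hDRV.sdh sF)) (per_dh pdF) β₀,
      un (dt F) (hDRV.sdt sF) ptF β₀, un (dh (dh (dt F))) (hDRV.sdh (hDRV.sdh (hDRV.sdt sF))) (per_dh (per_dh ptF)) β₀,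
      un (dh (dh (dh (dt F)))) (hDRV.sdh (hDRV.sdh (hDRV.sdh (hDRV.sdt sF)))) (per_dh (per_dh (per_dh ptF))) β₀,
      un (dt (dt F)) (hDRV.sdt (hDRV.sdt sF)) (per_dt ptF) β₀] with β v1 v2 v3 v4 v5 v6
    have base : (fun t θ => f 0 (ψ (t, θ))) = fun t θ => g (Y β₀ t θ) + b := by
      funext t θ
      rw [hY]
      exact (hgb _).symm
    have new : (fun t θ => (fun x => g (f (sin β ^ 2) x) + b) (ψ (t, θ))) = fun t θ => g (Y β t θ) + b := by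
      funext t θ
      rw [hY]
    have smg : ContMDiff 𝓘(ℝ, E2) 𝓘(ℝ, E3) ∞ (fun x => g (f (sin β ^ 2) x) + b) := by
      have h1 : ContDiff ℝ ∞ (fun y : E3 => g y + b) :=
        (g.toContinuousLinearEquiv.toContinuousLinearMap.contDiff).add contDiff_const
      exact h1.contMDiff.comp (fix_sm hf (sβ β))
    have hc := H (fun x => g (f (sin β ^ 2) x) + b) smg ?_ ?_
    · obtain ⟨g', b', h'⟩ := hc
      refine ⟨g.trans g', g' b + b', fun x => ?_⟩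
      rw [← h' x, map_add, LinearIsometryEquiv.coe_trans, Function.comp_apply]
      abel
    · intro x v
      have hd : MDifferentiableAt 𝓘(ℝ, E2) 𝓘(ℝ, E3) (f (sin β ^ 2)) x :=
        (fix_sm hf (sβ β)).mdifferentiableAt (by simp)
      have hg1 : HasFDerivAt (fun y : E3 => g y + b) (g.toContinuousLinearEquiv.toContinuousLinearMap)
          (f (sin β ^ 2) x) :=
        (g.toContinuousLinearEquiv.toContinuousLinearMap.hasFDerivAt).add_const b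
      have hg2 : MDifferentiableAt 𝓘(ℝ, E3) 𝓘(ℝ, E3) (fun y : E3 => g y + b) (f (sin β ^ 2) x) :=
        hg1.differentiableAt.mdifferentiableAt
      have h1 := mfderiv_comp x hg2 hd
      have h2 : dF (fun x => g (f (sin β ^ 2) x) + b) x v = g (dF (f (sin β ^ 2)) x v) := by
        have h3 : mfderiv 𝓘(ℝ, E2) 𝓘(ℝ, E3) (fun x => g (f (sin β ^ 2) x) + b) x = _ := h1
        unfold dF
        rw [h3, mfderiv_eq_fderiv, hg1.fderiv]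
        rfl
      rw [h2, g.norm_map]
      exact hiso _ (sβ β) x v
    · rw [base]
      have new2 : ClJ ε t₀ (fun t θ => g (Y β₀ t θ) + b) (fun t θ => g (Y β t θ) + b) := by
        have s1 := sY β
        have s2 := sY β₀
        have A1 : ∀ β', SJ J (Y β') → ∀ θ, ph (fun t θ => g (Y β' t θ) + b) t₀ θ = g (ph (Y β') t₀ θ) :=
          fun β' s θ => g_ph oJ g b s t₀ ht₀ θ
        have A2 : ∀ β', SJ J (Y β') → ∀ θ, ph (ph (fun t θ => g (Y β' t θ) + b)) t₀ θ = g (ph (ph (Y β')) t₀ θ) := by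
          intro β' s θ
          rw [hDR2.hcg (g_ph oJ g b s) t₀ ht₀ θ]
          exact g_ph0 oJ g (hDR2.sph oJ s) t₀ ht₀ θ
        have A3 : ∀ β', SJ J (Y β') → ∀ θ, pt (fun t θ => g (Y β' t θ) + b) t₀ θ = g (pt (Y β') t₀ θ) :=
          fun β' s θ => g_pt oJ g b s t₀ ht₀ θ
        have A6 : ∀ β', SJ J (Y β') → ∀ θ, pt (pt (fun t θ => g (Y β' t θ) + b)) t₀ θ = g (pt (pt (Y β')) t₀ θ) := by
          intro β' s θ
          rw [hDR2.pcg oJ (g_pt oJ g b s) t₀ ht₀ θ]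
          exact g_pt0 oJ g (hDR2.spt oJ s) t₀ ht₀ θ
        have B1 : ∀ β', SJ J (Y β') → ∀ t ∈ J, ∀ θ, ph (pt (fun t θ => g (Y β' t θ) + b)) t θ = g (ph (pt (Y β')) t θ) := by
          intro β' s t ht θ
          rw [hDR2.hcg (g_pt oJ g b s) t ht θ]
          exact g_ph0 oJ g (hDR2.spt oJ s) t ht θ
        have B2 : ∀ β', SJ J (Y β') → ∀ t ∈ J, ∀ θ, ph (ph (pt (fun t θ => g (Y β' t θ) + b))) t θ =
            g (ph (ph (pt (Y β'))) t θ) := by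
          intro β' s t ht θ
          rw [hDR2.hcg (B1 β' s) t ht θ]
          exact g_ph0 oJ g (hDR2.sph oJ (hDR2.spt oJ s)) t ht θ
        have B3 : ∀ β', SJ J (Y β') → ∀ t ∈ J, ∀ θ, ph (ph (ph (pt (fun t θ => g (Y β' t θ) + b)))) t θ =
            g (ph (ph (ph (pt (Y β')))) t θ) := by
          intro β' s t ht θ
          rw [hDR2.hcg (B2 β' s) t ht θ]
          exact g_ph0 oJ g (hDR2.sph oJ (hDR2.sph oJ (hDR2.spt oJ s))) t ht θ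
        intro θ
        rw [A1 β s1, A1 β₀ s2, A2 β s1, A2 β₀ s2, A3 β s1, A3 β₀ s2, B2 β s1 t₀ ht₀, B2 β₀ s2 t₀ ht₀,
          B3 β s1 t₀ ht₀, B3 β₀ s2 t₀ ht₀, A6 β s1, A6 β₀ s2]
        simp only [← map_sub, g.norm_map]
        obtain ⟨a1, a2⟩ := d0 β θ
        obtain ⟨a1', a2'⟩ := d0 β₀ θ
        obtain ⟨a3, a4, a5, a6⟩ := d1 β θ
        obtain ⟨a3', a4', a5', a6'⟩ := d1 β₀ θ
        rw [← a1, ← a2, ← a3, ← a4, ← a5, ← a6, ← a1', ← a2', ← a3', ← a4', ← a5', ← a6']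
        exact ⟨(v1 θ).le, (v2 θ).le, (v3 θ).le, (v4 θ).le, (v5 θ).le, (v6 θ).le⟩
      rw [← new] at new2
      exact new2
  have hclosed : IsClosed {β | Cong (f 0) (f (sin β ^ 2))} := by
    refine cong_closed (fun β => f (sin β ^ 2)) (f 0) (fun x => ?_)
    have h1 : ContinuousOn (fun p : ℝ × M => f p.1 p.2) (Icc 0 1 ×ˢ univ) := hf.continuousOn
    have h2 : Continuous (fun β : ℝ => ((sin β ^ 2, x) : ℝ × M)) := by fun_prop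
    exact h1.comp_continuous h2 (fun β => ⟨sβ β, mem_univ _⟩)
  have huniv : {β | Cong (f 0) (f (sin β ^ 2))} = univ := by
    refine IsClopen.eq_univ ⟨hclosed, hopen⟩ ⟨0, LinearIsometryEquiv.refl ℝ E3, 0, fun x => ?_⟩
    simp
  intro α hα
  have h1 : arcsin (√α) ∈ {β | Cong (f 0) (f (sin β ^ 2))} := by rw [huniv]; trivial
  have h2 : sin (arcsin √α) ^ 2 = α := by
    rw [sin_arcsin (by linarith [Real.sqrt_nonneg α]) (Real.sqrt_le_one.mpr hα.2)]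
    exact Real.sq_sqrt hα.1
  have h3 : Cong (f 0) (f (sin (arcsin √α) ^ 2)) := h1
  rwa [h2] at h3

/-- the differential after a motion -/
lemma BNDM.dF_g {M : Type} [TopologicalSpace M] [ChartedSpace E2 M] (g : E3 ≃ₗᵢ[ℝ] E3) (b : E3) {f : M → E3}
    (hf : ContMDiff 𝓘(ℝ, E2) 𝓘(ℝ, E3) ∞ f) (x : M) (v : TangentSpace 𝓘(ℝ, E2) x) :
    dF (fun x => g (f x) + b) x v = g (dF f x v) := by
  have hd : MDifferentiableAt 𝓘(ℝ, E2) 𝓘(ℝ, E3) f x := (hf x).mdifferentiableAt (by simp)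
  have hg1 : HasFDerivAt (fun y : E3 => g y + b) (g.toContinuousLinearEquiv.toContinuousLinearMap) (f x) :=
    (g.toContinuousLinearEquiv.toContinuousLinearMap.hasFDerivAt).add_const b
  have hg2 : MDifferentiableAt 𝓘(ℝ, E3) 𝓘(ℝ, E3) (fun y : E3 => g y + b) (f x) :=
    hg1.differentiableAt.mdifferentiableAt
  have h1 := mfderiv_comp x hg2 hd
  have h3 : mfderiv 𝓘(ℝ, E2) 𝓘(ℝ, E3) (fun x => g (f x) + b) x = _ := h1
  unfold dF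
  rw [h3, mfderiv_eq_fderiv, hg1.fderiv]
  rfl

open BNDM in
/-- isolated congruence, for the members of a bending -/
theorem isoBend {M : Type} [TopologicalSpace M] [ChartedSpace E2 M] {f : ℝ → M → E3} {J : Set ℝ} {ψ : ℝ × ℝ → M}
    {t₀ ε : ℝ} {f₀ : M → E3}
    (hf : ContMDiffOn (𝓘(ℝ, ℝ).prod 𝓘(ℝ, E2)) 𝓘(ℝ, E3) ∞ (fun p : ℝ × M => f p.1 p.2) (Icc 0 1 ×ˢ univ))
    (hiso : ∀ α ∈ Icc (0:ℝ) 1, ∀ (x : M) (v : TangentSpace 𝓘(ℝ, E2) x), ‖dF (f α) x v‖ = ‖dF (f 0) x v‖)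
    (oJ : IsOpen J) (ht₀ : t₀ ∈ J) (hψ : ContMDiffOn 𝓘(ℝ, ℝ × ℝ) 𝓘(ℝ, E2) ∞ ψ (J ×ˢ univ))
    (hper : ∀ t ∈ J, ∀ θ, ψ (t, θ + 2 * π) = ψ (t, θ)) (hf₀ : ContMDiff 𝓘(ℝ, E2) 𝓘(ℝ, E3) ∞ f₀)
    (h0 : ∀ (x : M) (v : TangentSpace 𝓘(ℝ, E2) x), ‖dF (f 0) x v‖ = ‖dF f₀ x v‖) (hε : 0 < ε)
    (H : ∀ f₁ : M → E3, ContMDiff 𝓘(ℝ, E2) 𝓘(ℝ, E3) ∞ f₁ →
      (∀ (x : M) (v : TangentSpace 𝓘(ℝ, E2) x), ‖dF f₁ x v‖ = ‖dF f₀ x v‖) →
      ClJ ε t₀ (fun t θ => f₀ (ψ (t, θ))) (fun t θ => f₁ (ψ (t, θ))) → Cong f₀ f₁)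
    (hc : ClJ ε t₀ (fun t θ => f₀ (ψ (t, θ))) (fun t θ => f 0 (ψ (t, θ)))) :
    ∀ α ∈ Icc (0:ℝ) 1, Cong f₀ (f α) := by
  have z01 : (0:ℝ) ∈ Icc (0:ℝ) 1 := ⟨le_refl _, zero_le_one⟩
  obtain ⟨g, b, hgb⟩ := H (f 0) (fix_sm hf z01) h0 hc
  have e0 : (fun x => g (f 0 x) + b) = f₀ := funext hgb
  have hg : ContDiff ℝ ∞ (fun y : E3 => g y + b) :=
    (g.toContinuousLinearEquiv.toContinuousLinearMap.contDiff).add contDiff_const
  have hf' : ContMDiffOn (𝓘(ℝ, ℝ).prod 𝓘(ℝ, E2)) 𝓘(ℝ, E3) ∞ (fun p : ℝ × M => g (f p.1 p.2) + b)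
      (Icc 0 1 ×ˢ univ) := hg.contMDiff.comp_contMDiffOn hf
  have key := bend (f := fun α x => g (f α x) + b) hf' ?_ oJ ht₀ hψ hper hε ?_
  · intro α hα
    obtain ⟨g', b', h'⟩ := key α hα
    refine ⟨g.trans g', g' b + b', fun x => ?_⟩
    have h2 : g' (g (f α x) + b) + b' = g (f 0 x) + b := h' x
    rw [← hgb x, ← h2, map_add, LinearIsometryEquiv.coe_trans, Function.comp_apply]
    abel
  · intro α hα x v
    rw [dF_g g b (fix_sm hf hα), dF_g g b (fix_sm hf z01), g.norm_map, g.norm_map]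
    exact hiso α hα x v
  · simp only [e0, hgb]
    exact H

end Rim478
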