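import Pool.Agent.Lib.MP_478c11_gt.G.TAY
import Pool.Agent.Lib.MP_478c11_gt.M.BNP
import Pool.Agent.Lib.MP_478c11_gt.MAN

set_option autoImplicit false

/-!
MP_478c11_gt (helper9): analytic surfaces of any genus with a nondegenerate convex rim.
-/

open Real MeasureTheory Set Filter Topology
open scoped ContDiff InnerProductSpace Manifold

namespace Rim478

namespace RIMM

open BRGM PAIM

lemma rp_an (t₀ s δ : ℝ) : ContDiff ℝ ω (rp t₀ s δ) := by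
  unfold rp
  exact contDiff_const.add (contDiff_const.mul (contDiff_const.mul (contDiff_sin.comp (contDiff_id.div_const δ))))

/-- independent vectors give an injective map -/
lemma inj_of {L : ℝ × ℝ →L[ℝ] E3} {a b : E3} (ha : L (1, 0) = a) (hb : L (0, 1) = b) (na : a ≠ 0) (nb : b ≠ 0)
    (hab : ⟪a, b⟫_ℝ = 0) : Function.Injective L := by
  rw [injective_iff_map_eq_zero]
  rintro ⟨x, y⟩ h
  have e : ((x, y) : ℝ × ℝ) = x • (1, 0) + y • (0, 1) := by ext <;> simp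
  rw [e, map_add, map_smul, map_smul, ha, hb] at h
  have h1 : ⟪a, x • a + y • b⟫_ℝ = 0 := by rw [h, inner_zero_right]
  have h2 : ⟪b, x • a + y • b⟫_ℝ = 0 := by rw [h, inner_zero_right]
  rw [inner_add_right, inner_smul_right, inner_smul_right, hab, mul_zero, add_zero] at h1
  rw [inner_add_right, inner_smul_right, inner_smul_right, real_inner_comm, hab, mul_zero, zero_add] at h2
  have hx : x = 0 := by
    rcases mul_eq_zero.mp h1 with h | h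
    · exact h
    · exact absurd (inner_self_eq_zero.mp h) na
  have hy : y = 0 := by
    rcases mul_eq_zero.mp h2 with h | h
    · exact h
    · exact absurd (inner_self_eq_zero.mp h) nb
  rw [hx, hy]
  rfl

lemma fd_part {G : ℝ × ℝ → E3} (h : DifferentiableAt ℝ G 0) :
    fderiv ℝ G 0 (1, 0) = deriv (fun s => G (s, 0)) 0 ∧ fderiv ℝ G 0 (0, 1) = deriv (fun s => G (0, s)) 0 := by
  have l1 : HasDerivAt (fun s : ℝ => ((s, 0) : ℝ × ℝ)) (1, 0) 0 := (hasDerivAt_id 0).prodMk (hasDerivAt_const 0 0)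
  have l2 : HasDerivAt (fun s : ℝ => ((0, s) : ℝ × ℝ)) (0, 1) 0 := (hasDerivAt_const 0 0).prodMk (hasDerivAt_id 0)
  have h1 : HasFDerivAt G (fderiv ℝ G 0) ((fun s : ℝ => ((s, 0) : ℝ × ℝ)) 0) := h.hasFDerivAt
  have h2 : HasFDerivAt G (fderiv ℝ G 0) ((fun s : ℝ => ((0, s) : ℝ × ℝ)) 0) := h.hasFDerivAt
  exact ⟨(h1.comp_hasDerivAt (f := fun s : ℝ => ((s, 0) : ℝ × ℝ)) 0 l1).deriv.symm,
    (h2.comp_hasDerivAt (f := fun s : ℝ => ((0, s) : ℝ × ℝ)) 0 l2).deriv.symm⟩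

section
variable {J : Set ℝ} {X Y : ℝ → ℝ → E3} {t₀ s δ : ℝ} (oJ : IsOpen J) (sX : SJ J X) (sY : SJ J Y) (pY : Per J Y)
  (tt : ∀ t ∈ J, ∀ θ, ⟪pt Y t θ, pt Y t θ⟫_ℝ = ⟪pt X t θ, pt X t θ⟫_ℝ)
  (th : ∀ t ∈ J, ∀ θ, ⟪pt Y t θ, ph Y t θ⟫_ℝ = ⟪pt X t θ, ph X t θ⟫_ℝ)
  (hh : ∀ t ∈ J, ∀ θ, ⟪ph Y t θ, ph Y t θ⟫_ℝ = ⟪ph X t θ, ph X t θ⟫_ℝ)
  (hs : s = 1 ∨ s = -1) (hδ : 0 < δ) (hJ : Icc (t₀ - δ) (t₀ + δ) ⊆ J)
include oJ sX sY hs hδ hJ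

include pY tt th hh in
lemma iso_r' : Iso (rY t₀ s δ X) (rY t₀ s δ Y) where
  sm := rY_sm hs hδ hJ sY
  per := fun τ θ => pY _ (rp_mem hs hδ hJ τ) θ
  gE := fun τ θ => hh _ (rp_mem hs hδ hJ τ) θ
  gF := fun τ θ => by
    have m := rp_mem hs hδ hJ τ
    rw [rY_pt hs hδ hJ oJ sY, rY_pt hs hδ hJ oJ sX, inner_smul_left, inner_smul_left]
    congr 1
    exact th _ m θ
  gG := fun τ θ => by
    have m := rp_mem hs hδ hJ τ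
    rw [rY_pt hs hδ hJ oJ sY, rY_pt hs hδ hJ oJ sX, inner_smul_left, inner_smul_left, inner_smul_right,
      inner_smul_right]
    congr 2
    exact tt _ m θ

lemma cl_r' {ε : ℝ} (h : ClJ ε t₀ X Y) : Cl ε (rY t₀ s δ X) (rY t₀ s δ Y) := by
  intro θ
  obtain ⟨h1, h2, h3, h4, h5, h6⟩ := h θ
  obtain ⟨a1, a2, a3, a4⟩ := at1s oJ hs hδ hJ sX θ
  obtain ⟨b1, b2, b3, b4⟩ := at1s oJ hs hδ hJ sY θ
  obtain ⟨a5, a6⟩ := at0s oJ hs hδ hJ sX θ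
  obtain ⟨b5, b6⟩ := at0s oJ hs hδ hJ sY θ
  have ns : ‖s‖ = 1 := by rcases hs with rfl | rfl <;> simp
  rw [a1, a2, a3, a4, b1, b2, b3, b4, a5, a6, b5, b6, ← smul_sub, ← smul_sub, ← smul_sub, norm_smul, norm_smul,
    norm_smul, ns, one_mul, one_mul, one_mul]
  exact ⟨h1, h2, h3, h4, h5, h6⟩

end

end RIMM

section
variable {M : Type} [TopologicalSpace M] [ChartedSpace E2 M] [IsManifold 𝓘(ℝ, E2) ω M] [ConnectedSpace M]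
  {J : Set ℝ} {ψ : ℝ × ℝ → M} {t₀ : ℝ} {f₀ : M → E3}

open RIMM BRGM PAIM in
/-- isolated form, analytic surfaces -/
theorem rimM (oJ : IsOpen J) (ht₀ : t₀ ∈ J) (hψ : ContMDiffOn 𝓘(ℝ, ℝ × ℝ) 𝓘(ℝ, E2) ω ψ (J ×ˢ univ))
    (hper : ∀ t ∈ J, ∀ θ, ψ (t, θ + 2 * π) = ψ (t, θ)) (hf₀ : ContMDiff 𝓘(ℝ, E2) 𝓘(ℝ, E3) ω f₀)
    (hrim : RimAt (fun t θ => f₀ (ψ (t, θ))) t₀) :
    ∃ ε : ℝ, 0 < ε ∧ ∀ f₁ : M → E3, ContMDiff 𝓘(ℝ, E2) 𝓘(ℝ, E3) ω f₁ →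
      (∀ (x : M) (v : TangentSpace 𝓘(ℝ, E2) x), ‖dF f₁ x v‖ = ‖dF f₀ x v‖) →
      ClJ ε t₀ (fun t θ => f₀ (ψ (t, θ))) (fun t θ => f₁ (ψ (t, θ))) → Cong f₀ f₁ := by
  have hf₀' : ContMDiff 𝓘(ℝ, E2) 𝓘(ℝ, E3) ∞ f₀ := hf₀.of_le (by simp)
  have hψ' : ContMDiffOn 𝓘(ℝ, ℝ × ℝ) 𝓘(ℝ, E2) ∞ ψ (J ×ˢ univ) := hψ.of_le (by simp)
  have sX : SJ J (fun t θ => f₀ (ψ (t, θ))) := BNDM.slice_sm hf₀' hψ'
  have pX : Per J (fun t θ => f₀ (ψ (t, θ))) := fun t ht θ => by simp only [hper t ht θ]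
  obtain ⟨R, u₁, u₂, s, h1, h2, h12, hs, Rpos, tan, nor, nd⟩ := hrim
  obtain ⟨δ, hδ, hJ⟩ : ∃ δ : ℝ, 0 < δ ∧ Icc (t₀ - δ) (t₀ + δ) ⊆ J := by
    obtain ⟨η, hη, h⟩ := Metric.isOpen_iff.mp oJ t₀ ht₀
    refine ⟨η / 2, by positivity, fun x hx => h ?_⟩
    rw [Metric.mem_ball, Real.dist_eq, abs_lt]
    constructor <;> linarith [hx.1, hx.2]
  have ss : s * s = 1 := by rcases hs with rfl | rfl <;> norm_num
  have F : Rim (rY t₀ s δ (fun t θ => f₀ (ψ (t, θ)))) R u₁ u₂ := {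
    sm := rY_sm hs hδ hJ sX
    per := fun τ θ => pX _ (rp_mem hs hδ hJ τ) θ
    h1 := h1
    h2 := h2
    h12 := h12
    Rpos := Rpos
    tan := fun θ => by rw [(at1s oJ hs hδ hJ sX θ).1]; exact tan θ
    nor := fun θ => by rw [(at0s oJ hs hδ hJ sX θ).1, nor θ, smul_smul, ss, one_smul]
    nd := fun θ => by rw [(at0s oJ hs hδ hJ sX θ).2]; exact nd θ }
  obtain ⟨ε, hε, hY⟩ := iso F
  refine ⟨ε, hε, fun f₁ hf₁ hiso hcl => ?_⟩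
  have hf₁' : ContMDiff 𝓘(ℝ, E2) 𝓘(ℝ, E3) ∞ f₁ := hf₁.of_le (by simp)
  have sY : SJ J (fun t θ => f₁ (ψ (t, θ))) := BNDM.slice_sm hf₁' hψ'
  have pY : Per J (fun t θ => f₁ (ψ (t, θ))) := fun t ht θ => by simp only [hper t ht θ]
  have IC := fun (t : ℝ) (ht : t ∈ J) (θ : ℝ) => REMM.iso_comp oJ hf₀' hf₁' hψ' hiso ht θ
  obtain ⟨g, b, hg, hk⟩ := hY (rY t₀ s δ (fun t θ => f₁ (ψ (t, θ))))
    (iso_r' oJ sX sY pY (fun t ht θ => (IC t ht θ).1) (fun t ht θ => (IC t ht θ).2.1) (fun t ht θ => (IC t ht θ).2.2)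
      hs hδ hJ) (cl_r' oJ sX sY hs hδ hJ hcl)
  -- the analytic reparametrization
  obtain ⟨ψ', hψd⟩ : ∃ ψ' : ℝ × ℝ → M, ψ' = fun p => ψ (rp t₀ s δ p.1, p.2) := ⟨_, rfl⟩
  have aψ : ContMDiff 𝓘(ℝ, ℝ × ℝ) 𝓘(ℝ, E2) ω ψ' := by
    have h2 : ContDiff ℝ ω (fun p : ℝ × ℝ => ((rp t₀ s δ p.1, p.2) : ℝ × ℝ)) :=
      ((rp_an t₀ s δ).comp contDiff_fst).prodMk contDiff_snd
    rw [hψd]
    exact hψ.comp_contMDiff h2.contMDiff (fun p => ⟨rp_mem hs hδ hJ _, mem_univ _⟩)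
  have ag : ContMDiff 𝓘(ℝ, E2) 𝓘(ℝ, E3) ω (fun x => g (f₁ x) + b) := by
    have h1 : ContDiff ℝ ω (fun y : E3 => g y + b) :=
      (g.toContinuousLinearEquiv.toContinuousLinearMap.contDiff).add contDiff_const
    exact h1.contMDiff.comp hf₁
  have c1 : ContDiff ℝ ω (fun p : ℝ × ℝ => g (f₁ (ψ' p)) + b) := (ag.comp aψ).contDiff
  have c0 : ContDiff ℝ ω (fun p : ℝ × ℝ => f₀ (ψ' p)) := (hf₀.comp aψ).contDiff
  -- equality on the plane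
  have heq : ∀ p : ℝ × ℝ, g (f₁ (ψ' p)) + b = f₀ (ψ' p) := by
    rintro ⟨τ, θ⟩
    have hw : ContDiff ℝ ω (fun τ : ℝ => (g (f₁ (ψ' (τ, θ))) + b) - f₀ (ψ' (τ, θ))) := by
      have h3 : ContDiff ℝ ω (fun τ : ℝ => ((τ, θ) : ℝ × ℝ)) := contDiff_id.prodMk contDiff_const
      exact (c1.comp h3).sub (c0.comp h3)
    have := specANA _ hw (fun k => ?_) τ
    · exact sub_eq_zero.mp this
    · have e1 := it_sub (J := univ) isOpen_univ k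
        (u := rY t₀ s δ (fun t θ => g (f₁ (ψ (t, θ))) + b)) (v := rY t₀ s δ (fun t θ => f₀ (ψ (t, θ))))
        (rY_sm hs hδ hJ (g_sm g b sY)).contDiffOn (rY_sm hs hδ hJ sX).contDiffOn 0 (mem_univ 0) θ
      have e2 : (pt^[k] (rY t₀ s δ (fun t θ => g (f₁ (ψ (t, θ))) + b))) 0 θ =
        (pt^[k] (rY t₀ s δ (fun t θ => f₀ (ψ (t, θ))))) 0 θ := hk k θ
      rw [e2, sub_self, FLTM.itd] at e1
      rw [hψd]
      exact e1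
  -- the derivative at the origin
  have hinj : Function.Injective (fderiv ℝ (fun p => f₀ (ψ' p)) 0) := by
    obtain ⟨p1, p2⟩ := fd_part (G := fun p => f₀ (ψ' p)) (c0.differentiable (by simp) 0)
    have k1 : (fderiv ℝ (fun p => f₀ (ψ' p)) 0) (1, 0) = pt (rY t₀ s δ (fun t θ => f₀ (ψ (t, θ)))) 0 0 := by
      rw [p1, hψd]
      rfl
    have k2 : (fderiv ℝ (fun p => f₀ (ψ' p)) 0) (0, 1) = ph (rY t₀ s δ (fun t θ => f₀ (ψ (t, θ)))) 0 0 := by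
      rw [p2, hψd]
      rfl
    have h11 : ⟪u₁, u₁⟫_ℝ = 1 := by rw [real_inner_self_eq_norm_sq, h1]; norm_num
    have h22 : ⟪u₂, u₂⟫_ℝ = 1 := by rw [real_inner_self_eq_norm_sq, h2]; norm_num
    have v1 : pt (rY t₀ s δ (fun t θ => f₀ (ψ (t, θ)))) 0 0 = u₂ := by
      rw [F.nor 0]; simp
    have v2 : ph (rY t₀ s δ (fun t θ => f₀ (ψ (t, θ)))) 0 0 = R 0 • u₁ := by
      rw [F.tan 0]; simp
    refine inj_of (k1.trans v1) (k2.trans v2) ?_ ?_ ?_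
    · intro h; rw [h, norm_zero] at h2; exact zero_ne_one h2
    · intro h
      rcases smul_eq_zero.mp h with h | h
      · exact (Rpos 0).ne' h
      · rw [h, norm_zero] at h1; exact zero_ne_one h1
    · rw [inner_smul_right, real_inner_comm, h12, mul_zero]
  exact ⟨g, b, specMAN f₀ (fun x => g (f₁ x) + b) f₀ ψ' hf₀ ag hf₀ aψ hinj heq⟩

/-- isolated form and bendings, analytic surfaces -/
theorem rimMB (oJ : IsOpen J) (ht₀ : t₀ ∈ J) (hψ : ContMDiffOn 𝓘(ℝ, ℝ × ℝ) 𝓘(ℝ, E2) ω ψ (J ×ˢ univ))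
    (hper : ∀ t ∈ J, ∀ θ, ψ (t, θ + 2 * π) = ψ (t, θ)) (hf₀ : ContMDiff 𝓘(ℝ, E2) 𝓘(ℝ, E3) ω f₀)
    (hrim : RimAt (fun t θ => f₀ (ψ (t, θ))) t₀) :
    ∃ ε : ℝ, 0 < ε ∧ ∀ f : ℝ → M → E3,
      ContMDiffOn (𝓘(ℝ, ℝ).prod 𝓘(ℝ, E2)) 𝓘(ℝ, E3) ∞ (fun p : ℝ × M => f p.1 p.2) (Icc 0 1 ×ˢ univ) →
      (∀ α ∈ Icc (0:ℝ) 1, ContMDiff 𝓘(ℝ, E2) 𝓘(ℝ, E3) ω (f α)) →
      (∀ α ∈ Icc (0:ℝ) 1, ∀ (x : M) (v : TangentSpace 𝓘(ℝ, E2) x), ‖dF (f α) x v‖ = ‖dF (f 0) x v‖) →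
      (∀ (x : M) (v : TangentSpace 𝓘(ℝ, E2) x), ‖dF (f 0) x v‖ = ‖dF f₀ x v‖) →
      ClJ ε t₀ (fun t θ => f₀ (ψ (t, θ))) (fun t θ => f 0 (ψ (t, θ))) →
      ∀ α ∈ Icc (0:ℝ) 1, Cong f₀ (f α) := by
  obtain ⟨ε, hε, H⟩ := rimM oJ ht₀ hψ hper hf₀ hrim
  refine ⟨ε, hε, fun f hf hα hiso h0 hc => isoBendP (P := fun h => ContMDiff 𝓘(ℝ, E2) 𝓘(ℝ, E3) ω h) hf hiso ?_ hα oJ ht₀
    (hψ.of_le (by simp)) hper h0 hε (fun f₁ h1 _ h2 h3 => H f₁ h1 h2 h3) hc⟩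
  intro g b h hh
  have h1 : ContDiff ℝ ω (fun y : E3 => g y + b) :=
    (g.toContinuousLinearEquiv.toContinuousLinearMap.contDiff).add contDiff_const
  exact h1.contMDiff.comp hh

end

end Rim478
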